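import Pool.Agent.J4H64.MN.Def

set_option autoImplicit false

/-! # Project MN, (NBIN): circuits with layers of NOT gates in the format of `H520R2.NM` -/

namespace Pool.Agent.J4H72.MN

open Finset Pool.Agent.H520R2 Pool.Agent.H520R2.NM Pool.Agent.J4H64.MN

section Ext

variable {I : Type}

/-- the wires of the longer circuit -/
def up {n : ℕ} (u : ℕ) : Wire I n → Wire I (n + u)
  | .input i => .input i
  | .const b => .const b
  | .gate j => .gate (Fin.castAdd u j)

theorem gate_eval {n : ℕ} (x : I → Bool) (v : Fin n → Bool) (j : Fin n) :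
    (Wire.gate j : Wire I n).eval x v = v j := rfl

theorem up_append {n u : ℕ} (x : I → Bool) (v : Fin n → Bool) (w : Fin u → Bool)
    (a : Wire I n) : (up u a).eval x (Fin.append v w) = a.eval x v := by
  cases a with
  | input i => rfl
  | const b => rfl
  | gate j => simp [up, Wire.eval]

theorem up_snoc {n : ℕ} (x : I → Bool) (v : Fin n → Bool) (b : Bool) (a : Wire I n) :
    (up 1 a).eval x (Fin.snoc (α := fun _ => Bool) v b) = a.eval x v := by
  cases a with
  | input i => rfl
  | const b => rfl
  | gate j =>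
    change Fin.snoc (α := fun _ => Bool) v b (Fin.castSucc j) = v j
    rw [Fin.snoc_castSucc]

/-- `C'` is `C` and `s` more binary gates -/
def Ext {n n' : ℕ} (C : Circuit I n) (C' : Circuit I n') (f : Wire I n → Wire I n') (s : ℕ) :
    Prop :=
  (∀ x a, (f a).eval x (C'.vals x) = a.eval x (C.vals x)) ∧ C'.size = C.size + s ∧
    C'.fanins = C.fanins

theorem chain_and {n : ℕ} (C : Circuit I n) (L : List (Wire I n)) :
    ∃ (n' : ℕ) (C' : Circuit I n') (f : Wire I n → Wire I n') (o : Wire I n'),
      Ext C C' f L.length ∧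
      ∀ x, (o.eval x (C'.vals x) = true ↔ ∀ a ∈ L, a.eval x (C.vals x) = true) := by
  induction L with
  | nil =>
    exact ⟨n, C, id, .const true, ⟨fun _ _ => rfl, rfl, rfl⟩, fun x => by simp [Wire.eval]⟩
  | cons a L ih =>
    obtain ⟨n', C', f, o, ⟨h1, h2, h3⟩, h4⟩ := ih
    refine ⟨n' + 1, C'.and (f a) o, fun b => up 1 (f b), .gate (Fin.last n'), ⟨?_, ?_, ?_⟩, ?_⟩
    · intro x b
      rw [Circuit.vals, up_snoc, h1]
    · rw [Circuit.size, h2, List.length_cons]
      ring
    · rw [Circuit.fanins, h3]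
    · intro x
      rw [Circuit.vals]
      change Fin.snoc (α := fun _ => Bool) _ _ (Fin.last n') = true ↔ _
      rw [Fin.snoc_last, Bool.and_eq_true, h1, h4, List.forall_mem_cons]

theorem chain_or {n : ℕ} (C : Circuit I n) (L : List (Wire I n)) :
    ∃ (n' : ℕ) (C' : Circuit I n') (f : Wire I n → Wire I n') (o : Wire I n'),
      Ext C C' f L.length ∧
      ∀ x, (o.eval x (C'.vals x) = true ↔ ∃ a ∈ L, a.eval x (C.vals x) = true) := by
  induction L with
  | nil =>
    exact ⟨n, C, id, .const false, ⟨fun _ _ => rfl, rfl, rfl⟩, fun x => by simp [Wire.eval]⟩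
  | cons a L ih =>
    obtain ⟨n', C', f, o, ⟨h1, h2, h3⟩, h4⟩ := ih
    refine ⟨n' + 1, C'.or (f a) o, fun b => up 1 (f b), .gate (Fin.last n'), ⟨?_, ?_, ?_⟩, ?_⟩
    · intro x b
      rw [Circuit.vals, up_snoc, h1]
    · rw [Circuit.size, h2, List.length_cons]
      ring
    · rw [Circuit.fanins, h3]
    · intro x
      rw [Circuit.vals]
      change Fin.snoc (α := fun _ => Bool) _ _ (Fin.last n') = true ↔ _
      rw [Fin.snoc_last, Bool.or_eq_true, h1, h4]
      simp

end Ext

section Good

variable {I : Type} [Fintype I] (C : NCirc I)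

/-- the gates in `P` are computed -/
def Good (P : Finset (Fin C.m)) (p : ℕ) : Prop :=
  ∃ (n : ℕ) (D : Circuit I n) (W : Fin C.m → Wire I n),
    (∀ x v, C.Val x v → ∀ j ∈ P, (W j).eval x (D.vals x) = v j) ∧
    D.size + D.fanins.sum ≤ P.card * (C.m + Fintype.card I + 1) ∧
    (D.fanins.map (· + 1)).prod ≤ p

/-- the wires of the predecessors -/
noncomputable def prd {n : ℕ} (W : Fin C.m → Wire I n) (j : Fin C.m) : List (Wire I n) :=
  (C.predIn j).toList.map Wire.input ++ (C.predG j).toList.map W

theorem prd_length {n : ℕ} (W : Fin C.m → Wire I n) (j : Fin C.m) :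
    (prd C W j).length ≤ C.m + Fintype.card I := by
  rw [prd, List.length_append, List.length_map, List.length_map, Finset.length_toList,
    Finset.length_toList]
  have h1 := Finset.card_le_univ (C.predIn j)
  have h2 := Finset.card_le_univ (C.predG j)
  rw [Fintype.card_fin] at h2
  omega

omit [Fintype I] in
theorem prd_all {n : ℕ} (D : Circuit I n) (W : Fin C.m → Wire I n) (j : Fin C.m)
    (x : I → Bool) (v : Fin C.m → Bool) (h : ∀ i ∈ C.predG j, (W i).eval x (D.vals x) = v i) :
    (∀ a ∈ prd C W j, a.eval x (D.vals x) = true) ↔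
      ((∀ i ∈ C.predIn j, x i = true) ∧ ∀ k ∈ C.predG j, v k = true) := by
  simp only [prd, List.mem_append, List.mem_map, Finset.mem_toList]
  constructor
  · intro h1
    refine ⟨fun i hi => h1 (.input i) (Or.inl ⟨i, hi, rfl⟩), fun k hk => ?_⟩
    rw [← h k hk]
    exact h1 _ (Or.inr ⟨k, hk, rfl⟩)
  · rintro ⟨h1, h2⟩ a (⟨i, hi, rfl⟩ | ⟨k, hk, rfl⟩)
    · exact h1 i hi
    · rw [h k hk]
      exact h2 k hk

omit [Fintype I] in
theorem prd_ex {n : ℕ} (D : Circuit I n) (W : Fin C.m → Wire I n) (j : Fin C.m)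
    (x : I → Bool) (v : Fin C.m → Bool) (h : ∀ i ∈ C.predG j, (W i).eval x (D.vals x) = v i) :
    (∃ a ∈ prd C W j, a.eval x (D.vals x) = true) ↔
      ((∃ i ∈ C.predIn j, x i = true) ∨ ∃ k ∈ C.predG j, v k = true) := by
  simp only [prd, List.mem_append, List.mem_map, Finset.mem_toList]
  constructor
  · rintro ⟨a, ⟨i, hi, rfl⟩ | ⟨k, hk, rfl⟩, h1⟩
    · exact Or.inl ⟨i, hi, h1⟩
    · exact Or.inr ⟨k, hk, by rw [← h k hk, h1]⟩
  · rintro (⟨i, hi, h1⟩ | ⟨k, hk, h1⟩)
    · exact ⟨.input i, Or.inl ⟨i, hi, rfl⟩, h1⟩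
    · exact ⟨W k, Or.inr ⟨k, hk, rfl⟩, by rw [h k hk, h1]⟩

theorem good_gate (P : Finset (Fin C.m)) (p : ℕ) (hG : Good C P p) (j : Fin C.m)
    (hj : C.kind j ≠ 2) (hP : ∀ i ∈ C.predG j, i ∈ P) : Good C (insert j P) p := by
  by_cases hjP : j ∈ P
  · rwa [Finset.insert_eq_of_mem hjP]
  obtain ⟨n, D, W, h1, h2, h3⟩ := hG
  have hch : ∃ (n' : ℕ) (C' : Circuit I n') (f : Wire I n → Wire I n') (o : Wire I n'),
      Ext D C' f (prd C W j).length ∧ ∀ x v, C.Val x v → o.eval x (C'.vals x) = v j := by
    have hk : C.kind j = 0 ∨ C.kind j = 1 := by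
      revert hj
      generalize C.kind j = q
      revert q
      decide
    rcases hk with hk | hk
    · obtain ⟨n', C', f, o, h4, h5⟩ := chain_or D (prd C W j)
      refine ⟨n', C', f, o, h4, fun x v hv => ?_⟩
      rw [Bool.eq_iff_iff, h5, prd_ex C D W j x v fun i hi => h1 x v hv i (hP i hi),
        ((hv j).1 hk)]
    · obtain ⟨n', C', f, o, h4, h5⟩ := chain_and D (prd C W j)
      refine ⟨n', C', f, o, h4, fun x v hv => ?_⟩
      rw [Bool.eq_iff_iff, h5, prd_all C D W j x v fun i hi => h1 x v hv i (hP i hi),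
        ((hv j).2.1 hk)]
  obtain ⟨n', C', f, o, ⟨h4, h5, h6⟩, h7⟩ := hch
  refine ⟨n', C', Function.update (fun i => f (W i)) j o, ?_, ?_, ?_⟩
  · intro x v hv i hi
    by_cases hij : i = j
    · subst hij
      rw [Function.update_self]
      exact h7 x v hv
    · rw [Function.update_of_ne hij, h4]
      exact h1 x v hv i ((Finset.mem_insert.1 hi).resolve_left hij)
  · have h8 := prd_length C W j
    rw [h5, h6, Finset.card_insert_of_notMem hjP, Nat.add_mul, one_mul]
    omega
  · rw [h6]
    exact h3

theorem good_chains (P : Finset (Fin C.m)) (p : ℕ) (hG : Good C P p) (N : Finset (Fin C.m))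
    (hN : ∀ j ∈ N, C.kind j = 2) (hP : ∀ j ∈ N, ∀ i ∈ C.predG j, i ∈ P) :
    ∃ (n : ℕ) (D : Circuit I n) (W A : Fin C.m → Wire I n),
      (∀ x v, C.Val x v → ∀ j ∈ P, (W j).eval x (D.vals x) = v j) ∧
      (∀ x v, C.Val x v → ∀ j ∈ N, (A j).eval x (D.vals x) = !(v j)) ∧
      D.size + D.fanins.sum ≤ P.card * (C.m + Fintype.card I + 1) +
        N.card * (C.m + Fintype.card I) ∧
      (D.fanins.map (· + 1)).prod ≤ p := by
  induction N using Finset.induction_on with
  | empty =>
    obtain ⟨n, D, W, h1, h2, h3⟩ := hG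
    exact ⟨n, D, W, W, h1, by simp, by simpa using h2, h3⟩
  | insert j N hj ih =>
    obtain ⟨n, D, W, A, h1, h2, h3, h3'⟩ := ih (fun i hi => hN i (Finset.mem_insert_of_mem hi))
      fun i hi => hP i (Finset.mem_insert_of_mem hi)
    obtain ⟨n', C', f, o, ⟨h4, h5, h6⟩, h7⟩ := chain_and D (prd C W j)
    have hjN := Finset.mem_insert_self j N
    refine ⟨n', C', fun i => f (W i), Function.update (fun i => f (A i)) j o, ?_, ?_, ?_, ?_⟩
    · intro x v hv i hi
      rw [h4]
      exact h1 x v hv i hi
    · intro x v hv i hi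
      by_cases hij : i = j
      · subst hij
        rw [Function.update_self, Bool.eq_iff_iff, h7, prd_all C D W i x v fun k hk =>
          h1 x v hv k (hP i hjN k hk)]
        have h8 := (hv i).2.2 (hN i hjN)
        cases h9 : v i
        · rw [h9] at h8
          simp only [Bool.not_false, iff_true]
          by_contra h10
          exact absurd (h8.2 h10) (by simp)
        · rw [h9] at h8
          simp only [Bool.not_true, Bool.false_eq_true, iff_false]
          exact h8.1 rfl
      · rw [Function.update_of_ne hij, h4]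
        exact h2 x v hv i ((Finset.mem_insert.1 hi).resolve_left hij)
    · have h8 := prd_length C W j
      rw [h5, h6, Finset.card_insert_of_notMem hj, Nat.add_mul, one_mul]
      omega
    · rw [h6]
      exact h3'

theorem good_layer (P : Finset (Fin C.m)) (p : ℕ) (hG : Good C P p) (N : Finset (Fin C.m))
    (hPN : Disjoint P N) (hN : ∀ j ∈ N, C.kind j = 2) (hP : ∀ j ∈ N, ∀ i ∈ C.predG j, i ∈ P) :
    Good C (P ∪ N) (p * (N.card + 1)) := by
  obtain ⟨n, D, W, A, h1, h2, h3, h4⟩ := good_chains C P p hG N hN hP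
  refine ⟨n + N.card, D.any N.card N.card (fun b i => !(b i)) (fun i => A (N.equivFin.symm i)),
    fun j => if h : j ∈ N then .gate (Fin.natAdd n (N.equivFin ⟨j, h⟩)) else up _ (W j), ?_, ?_, ?_⟩
  · intro x v hv j hj
    rw [Circuit.vals]
    by_cases hjN : j ∈ N
    · simp only [hjN, dif_pos, gate_eval, Fin.append_right, Equiv.symm_apply_apply]
      rw [h2 x v hv j hjN, Bool.not_not]
    · simp only [hjN, dif_neg, not_false_eq_true, up_append]
      exact h1 x v hv j ((Finset.mem_union.1 hj).resolve_right hjN)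
  · rw [Circuit.size, Circuit.fanins, List.sum_cons, Finset.card_union_of_disjoint hPN]
    have e : (P.card + N.card) * (C.m + Fintype.card I + 1) =
      P.card * (C.m + Fintype.card I + 1) + N.card * (C.m + Fintype.card I) + N.card := by ring
    omega
  · rw [Circuit.fanins, List.map_cons, List.prod_cons, mul_comm p]
    exact Nat.mul_le_mul le_rfl h4

theorem levels (lvl : Fin C.m → ℕ)
    (h : ∀ j, ∀ i ∈ C.predG j, lvl i ≤ lvl j ∧ (C.kind j = 2 → lvl i < lvl j)) (l : ℕ) :
    Good C (univ.filter (fun j => lvl j < l))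
      (∏ l' ∈ range l, ((univ.filter (fun j => C.kind j = 2 ∧ lvl j = l')).card + 1)) := by
  induction l with
  | zero =>
    refine ⟨0, .empty, fun _ => .const false, ?_, ?_, ?_⟩
    · intro x v _ j hj
      simp at hj
    · simp [Circuit.size, Circuit.fanins]
    · simp [Circuit.fanins]
  | succ l ih =>
    rw [Finset.prod_range_succ]
    have h1 := good_layer C _ _ ih (univ.filter (fun j => C.kind j = 2 ∧ lvl j = l)) (by
      rw [Finset.disjoint_left]
      intro j h2 h3
      simp only [Finset.mem_filter, Finset.mem_univ, true_and] at h2 h3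
      omega) (fun j hj => (Finset.mem_filter.1 hj).2.1) (fun j hj i hi => by
      simp only [Finset.mem_filter, Finset.mem_univ, true_and] at hj ⊢
      have := (h j i hi).2 hj.1
      omega)
    have h2 : ∀ k ≤ C.m, Good C (univ.filter (fun j : Fin C.m => lvl j < l ∨
        (lvl j = l ∧ (C.kind j = 2 ∨ (j : ℕ) < k))))
        ((∏ l' ∈ range l, ((univ.filter (fun j => C.kind j = 2 ∧ lvl j = l')).card + 1)) *
          ((univ.filter (fun j => C.kind j = 2 ∧ lvl j = l)).card + 1)) := by
      intro k
      induction k with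
      | zero =>
        intro _
        have e : (univ.filter (fun j : Fin C.m => lvl j < l ∨
            (lvl j = l ∧ (C.kind j = 2 ∨ (j : ℕ) < 0)))) =
            univ.filter (fun j => lvl j < l) ∪
              univ.filter (fun j => C.kind j = 2 ∧ lvl j = l) := by
          ext j
          simp only [Finset.mem_filter, Finset.mem_univ, true_and, Finset.mem_union]
          constructor
          · rintro (h3 | ⟨h3, h4 | h4⟩)
            · exact Or.inl h3
            · exact Or.inr ⟨h4, h3⟩
            · omega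
          · rintro (h3 | ⟨h3, h4⟩)
            · exact Or.inl h3
            · exact Or.inr ⟨h4, Or.inl h3⟩
        rw [e]
        exact h1
      | succ k ihk =>
        intro hk
        have h3 := ihk (by omega)
        by_cases h4 : lvl ⟨k, hk⟩ = l ∧ C.kind ⟨k, hk⟩ ≠ 2
        · have h5 := good_gate C _ _ h3 ⟨k, hk⟩ h4.2 (fun i hi => by
            simp only [Finset.mem_filter, Finset.mem_univ, true_and]
            have h6 := (h _ i hi).1
            have h7 : (i : ℕ) < k := C.acyclic _ i hi
            omega)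
          have e : insert (⟨k, hk⟩ : Fin C.m) (univ.filter (fun j : Fin C.m => lvl j < l ∨
              (lvl j = l ∧ (C.kind j = 2 ∨ (j : ℕ) < k)))) = univ.filter (fun j : Fin C.m =>
              lvl j < l ∨ (lvl j = l ∧ (C.kind j = 2 ∨ (j : ℕ) < k + 1))) := by
            ext j
            simp only [Finset.mem_filter, Finset.mem_univ, true_and, Finset.mem_insert]
            constructor
            · rintro (h6 | h6 | ⟨h6, h7 | h7⟩)
              · subst h6
                exact Or.inr ⟨h4.1, Or.inr (Nat.lt_succ_self k)⟩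
              · exact Or.inl h6
              · exact Or.inr ⟨h6, Or.inl h7⟩
              · exact Or.inr ⟨h6, Or.inr (by omega)⟩
            · rintro (h6 | ⟨h6, h7 | h7⟩)
              · exact Or.inr (Or.inl h6)
              · exact Or.inr (Or.inr ⟨h6, Or.inl h7⟩)
              · by_cases h8 : (j : ℕ) = k
                · exact Or.inl (Fin.ext h8)
                · exact Or.inr (Or.inr ⟨h6, Or.inr (by omega)⟩)
          rwa [e] at h5
        · have e : (univ.filter (fun j : Fin C.m => lvl j < l ∨
              (lvl j = l ∧ (C.kind j = 2 ∨ (j : ℕ) < k + 1)))) = univ.filter (fun j : Fin C.m =>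
              lvl j < l ∨ (lvl j = l ∧ (C.kind j = 2 ∨ (j : ℕ) < k))) := by
            ext j
            simp only [Finset.mem_filter, Finset.mem_univ, true_and]
            constructor
            · rintro (h6 | ⟨h6, h7 | h7⟩)
              · exact Or.inl h6
              · exact Or.inr ⟨h6, Or.inl h7⟩
              · by_cases h8 : (j : ℕ) = k
                · have h9 : j = ⟨k, hk⟩ := Fin.ext h8
                  subst h9
                  refine Or.inr ⟨h6, Or.inl ?_⟩
                  by_contra h10
                  exact h4 ⟨h6, h10⟩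
                · exact Or.inr ⟨h6, Or.inr (by omega)⟩
            · rintro (h6 | ⟨h6, h7 | h7⟩)
              · exact Or.inl h6
              · exact Or.inr ⟨h6, Or.inl h7⟩
              · exact Or.inr ⟨h6, Or.inr (by omega)⟩
          rw [e]
          exact h3
    have h3 := h2 C.m le_rfl
    have e : (univ.filter (fun j : Fin C.m => lvl j < l ∨
        (lvl j = l ∧ (C.kind j = 2 ∨ (j : ℕ) < C.m)))) = univ.filter (fun j => lvl j < l + 1) := by
      ext j
      simp only [Finset.mem_filter, Finset.mem_univ, true_and]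
      have := j.isLt
      constructor
      · rintro (h6 | ⟨h6, -⟩)
        · omega
        · omega
      · intro h6
        by_cases h7 : lvl j < l
        · exact Or.inl h7
        · exact Or.inr ⟨by omega, Or.inr this⟩
    rwa [e] at h3

omit [Fintype I] in
/-- every input has a valuation -/
theorem exists_val (x : I → Bool) : ∃ v, C.Val x v := by
  have h : ∀ k ≤ C.m, ∃ v : Fin C.m → Bool, ∀ j : Fin C.m, (j : ℕ) < k →
      (C.kind j = 0 → (v j = true ↔
        ((∃ i ∈ C.predIn j, x i = true) ∨ ∃ k ∈ C.predG j, v k = true))) ∧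
      (C.kind j = 1 → (v j = true ↔
        ((∀ i ∈ C.predIn j, x i = true) ∧ ∀ k ∈ C.predG j, v k = true))) ∧
      (C.kind j = 2 → (v j = true ↔
        ¬ ((∀ i ∈ C.predIn j, x i = true) ∧ ∀ k ∈ C.predG j, v k = true))) := by
    classical
    intro k
    induction k with
    | zero => exact fun _ => ⟨fun _ => false, fun j hj => absurd hj (Nat.not_lt_zero _)⟩
    | succ k ih =>
      intro hk
      obtain ⟨v, hv⟩ := ih (by omega)
      have hne : ∀ j : Fin C.m, (j : ℕ) ≤ k → ∀ i ∈ C.predG j, i ≠ ⟨k, hk⟩ := by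
        intro j hj i hi h1
        have h2 : i < j := C.acyclic j i hi
        rw [h1, Fin.lt_def] at h2
        simp only at h2
        omega
      have hex : ∀ (b : Bool) (j : Fin C.m), (j : ℕ) ≤ k →
          ((∃ i ∈ C.predG j, Function.update v ⟨k, hk⟩ b i = true) ↔
            ∃ i ∈ C.predG j, v i = true) := by
        intro b j hj
        constructor
        · rintro ⟨i, hi, h1⟩
          rw [Function.update_of_ne (hne j hj i hi)] at h1
          exact ⟨i, hi, h1⟩
        · rintro ⟨i, hi, h1⟩
          refine ⟨i, hi, ?_⟩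
          rwa [Function.update_of_ne (hne j hj i hi)]
      have hall : ∀ (b : Bool) (j : Fin C.m), (j : ℕ) ≤ k →
          ((∀ i ∈ C.predG j, Function.update v ⟨k, hk⟩ b i = true) ↔
            ∀ i ∈ C.predG j, v i = true) := by
        intro b j hj
        constructor
        · intro h1 i hi
          have h2 := h1 i hi
          rwa [Function.update_of_ne (hne j hj i hi)] at h2
        · intro h1 i hi
          rw [Function.update_of_ne (hne j hj i hi)]
          exact h1 i hi
      refine ⟨Function.update v ⟨k, hk⟩ (if C.kind ⟨k, hk⟩ = 0 then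
          decide ((∃ i ∈ C.predIn ⟨k, hk⟩, x i = true) ∨ ∃ i ∈ C.predG ⟨k, hk⟩, v i = true)
        else if C.kind ⟨k, hk⟩ = 1 then
          decide ((∀ i ∈ C.predIn ⟨k, hk⟩, x i = true) ∧ ∀ i ∈ C.predG ⟨k, hk⟩, v i = true)
        else
          decide (¬ ((∀ i ∈ C.predIn ⟨k, hk⟩, x i = true) ∧
            ∀ i ∈ C.predG ⟨k, hk⟩, v i = true))), fun j hj => ?_⟩
      rw [hex _ j (by omega), hall _ j (by omega)]
      by_cases hjk : j = ⟨k, hk⟩
      · subst hjk
        rw [Function.update_self]
        refine ⟨fun h1 => ?_, fun h1 => ?_, fun h1 => ?_⟩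
        · rw [if_pos h1, decide_eq_true_eq]
        · rw [if_neg (by rw [h1]; decide), if_pos h1, decide_eq_true_eq]
        · rw [if_neg (by rw [h1]; decide), if_neg (by rw [h1]; decide), decide_eq_true_eq]
      · rw [Function.update_of_ne hjk]
        refine hv j ?_
        have : (j : ℕ) ≠ k := fun h => hjk (Fin.ext h)
        omega
  obtain ⟨v, hv⟩ := h C.m le_rfl
  exact ⟨v, fun j => hv j j.isLt⟩

end Good

theorem t_NBIN : S_NBIN := by
  intro I _ C B hB
  obtain ⟨lvl, h1, h2⟩ := hB
  obtain ⟨L, hL⟩ : ∃ L : ℕ, ∀ j, lvl j < L := by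
    obtain ⟨L, hL⟩ := (Set.finite_range lvl).bddAbove
    exact ⟨L + 1, fun j => Nat.lt_succ_of_le (hL ⟨j, rfl⟩)⟩
  obtain ⟨n, D, W, h3, h4, h5⟩ := levels C lvl h1 L
  have e1 : (univ.filter (fun j => lvl j < L)) = univ :=
    Finset.filter_true_of_mem fun j _ => hL j
  have e2 : ∏ l' ∈ range L, ((univ.filter (fun j => C.kind j = 2 ∧ lvl j = l')).card + 1) =
      ∏ l ∈ univ.image lvl, ((univ.filter (fun j => C.kind j = 2 ∧ lvl j = l)).card + 1) := by
    refine (Finset.prod_subset ?_ ?_).symm
    · intro l hl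
      obtain ⟨j, -, rfl⟩ := Finset.mem_image.1 hl
      exact Finset.mem_range.2 (hL j)
    · intro l _ hl
      have : (univ.filter (fun j => C.kind j = 2 ∧ lvl j = l)) = ∅ := by
        rw [Finset.filter_eq_empty_iff]
        rintro j - ⟨-, h6⟩
        exact hl (Finset.mem_image.2 ⟨j, Finset.mem_univ _, h6⟩)
      rw [this, Finset.card_empty, zero_add]
  rw [e1] at h3 h4
  rw [e2] at h5
  refine ⟨n + 1, D.any 1 1 (fun b i => !(b i)) (fun _ => W C.o), .gate (Fin.natAdd n 0),
    ?_, ?_, ?_⟩
  · intro x
    rw [Circuit.vals]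
    rw [gate_eval, Fin.append_right]
    obtain ⟨v, hv⟩ := exists_val C x
    constructor
    · rintro h6 ⟨v', hv', h7⟩
      rw [h3 x v' hv' C.o (Finset.mem_univ _), h7] at h6
      exact absurd h6 (by simp)
    · intro h6
      rw [h3 x v hv C.o (Finset.mem_univ _)]
      by_contra h7
      refine h6 ⟨v, hv, ?_⟩
      simpa using h7
  · rw [Circuit.size, Circuit.fanins, List.sum_cons]
    rw [Finset.card_univ, Fintype.card_fin] at h4
    have e : (C.m + 1) * (C.m + Fintype.card I + 2) = C.m * (C.m + Fintype.card I + 1) + C.m +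
      (C.m + Fintype.card I + 2) := by ring
    omega
  · rw [Circuit.fanins, List.map_cons, List.prod_cons]
    exact Nat.mul_le_mul le_rfl (h5.trans h2)

end Pool.Agent.J4H72.MN
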